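import Pool.Agent.H380DU.AMeas
import Pool.Agent.H380DU.AWord
import Pool.Agent.H380DT.Fg

set_option autoImplicit false

namespace Pool.Agent.H380DU

open Pool.Agent.H380DT

open MeasureTheory Topology

/-! ### Tail rules are closed under composition and inverses -/

section rule

variable [Alph]

theorem TailRule2.comp {f g : YY → YY} (hf : TailRule2 f) (hg : TailRule2 g)
    (gc : Continuous g) : TailRule2 (fun x => f (g x)) := by
  intro p
  obtain ⟨a, b, c, d, h1⟩ := hg p
  obtain ⟨a', b', c', d', h2⟩ := hf (g p)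
  refine ⟨a' + a, b + b', c' + c, d + d', ?_⟩
  filter_upwards [h1, gc.continuousAt.eventually h2] with q hq1 hq2
  constructor
  · rw [← sh_sh, hq2.1, sh_sh, Nat.add_comm b' a, ← sh_sh, hq1.1, sh_sh]
  · rw [← sh_sh, hq2.2, sh_sh, Nat.add_comm d' c, ← sh_sh, hq1.2, sh_sh]

theorem TailRule2.symm {f : YY ≃ₜ YY} (hf : TailRule2 f) : TailRule2 f.symm := by
  intro p
  obtain ⟨a, b, c, d, h1⟩ := hf (f.symm p)
  refine ⟨b, a, d, c, ?_⟩
  have hc : ContinuousAt f.symm p := f.symm.continuous.continuousAt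
  filter_upwards [hc.eventually h1] with q hq
  rw [f.apply_symm_apply] at hq
  exact ⟨hq.1.symm, hq.2.symm⟩

end rule

section tail

/-- Tail rule on `(A^ℕ)^n`. -/
def TailRuleN {A : Type} [TopologicalSpace A] {n : ℕ}
    (f : (Fin n → ℕ → A) → (Fin n → ℕ → A)) : Prop :=
  ∀ x, ∃ a b : Fin n → ℕ, ∀ᶠ y in 𝓝 x, ∀ i, sh (a i) (f y i) = sh (b i) (y i)

/-- Homeomorphisms of `(A^ℕ)^n` given, on finitely many boxes, by prefix replacement in each
coordinate. -/
def brinOne (A : Type) [TopologicalSpace A] (n : ℕ) :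
    Set ((Fin n → ℕ → A) ≃ₜ (Fin n → ℕ → A)) :=
  {f | ∃ P : Set (Fin n → List A), P.Finite ∧
      (∀ x : Fin n → ℕ → A, ∃ u ∈ P, ∃ w : Fin n → ℕ → A, x = fun i => app (u i) (w i)) ∧
      ∀ u ∈ P, ∃ v : Fin n → List A, ∀ w : Fin n → ℕ → A,
        f (fun i => app (u i) (w i)) = fun i => app (v i) (w i)}

variable {A : Type} [Finite A] [TopologicalSpace A] [DiscreteTopology A]

/-! ### Tail rules give elements of the Brin-Thompson group -/

omit [Finite A] [TopologicalSpace A] [DiscreteTopology A] in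
theorem sh_app_pre {b N : ℕ} (h : b ≤ N) (x w : ℕ → A) :
    sh b (app (pre N x) w) = app (pre (N - b) (sh b x)) w := by
  funext k
  by_cases hk : k < N - b
  · rw [sh_apply, app_apply_lt _ _ _ (by rw [length_pre]; omega),
      app_apply_lt _ _ _ (by rw [length_pre]; exact hk)]
    simp [pre]
  · obtain ⟨m, rfl⟩ : ∃ m, k = (N - b) + m := ⟨k - (N - b), by omega⟩
    have h1 := app_apply_add (pre N x) w m
    have h2 := app_apply_add (pre (N - b) (sh b x)) w m
    rw [length_pre] at h1 h2
    rw [sh_apply, h2, show b + (N - b + m) = N + m by omega, h1]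

theorem exists_box {n : ℕ} {x : Fin n → ℕ → A} {P : (Fin n → ℕ → A) → Prop}
    (h : ∀ᶠ y in 𝓝 x, P y) : ∃ N : ℕ, ∀ y, (∀ i, ∀ k < N, y i k = x i k) → P y := by
  rw [Filter.eventually_iff, nhds_pi, Filter.mem_pi] at h
  obtain ⟨I, -, t, ht, hsub⟩ := h
  have h1 : ∀ i : Fin n, ∃ N : ℕ, ∀ z, (∀ k < N, z k = x i k) → z ∈ t i := fun i =>
    exists_cylinder (P := fun z => z ∈ t i) (ht i)
  choose N hN using h1
  refine ⟨∑ i, N i, fun y hy => hsub ?_⟩
  intro i _
  refine hN i (y i) fun k hk => hy i k (lt_of_lt_of_le hk ?_)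
  exact Finset.single_le_sum (f := N) (fun _ _ => Nat.zero_le _) (Finset.mem_univ i)

theorem box_mem_nhds {n : ℕ} (x : Fin n → ℕ → A) (N : ℕ) :
    {y : Fin n → ℕ → A | ∀ i, ∀ k < N, y i k = x i k} ∈ 𝓝 x := by
  have : ∀ᶠ y in 𝓝 x, ∀ i, ∀ k < N, y i k = x i k := by
    rw [Filter.eventually_all]
    intro i
    exact (continuous_apply i).continuousAt.eventually (eventually_agree (x i) N)
  exact this

theorem brin_local {n : ℕ} (f : (Fin n → ℕ → A) ≃ₜ (Fin n → ℕ → A)) (hf : TailRuleN f)
    (x : Fin n → ℕ → A) : ∃ (N : ℕ) (v : Fin n → List A), ∀ w : Fin n → ℕ → A,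
      f (fun i => app (pre N (x i)) (w i)) = fun i => app (v i) (w i) := by
  obtain ⟨a, b, hab⟩ := hf x
  have hc : ∀ᶠ y in 𝓝 x, ∀ i, ∀ k < a i, f y i k = f x i k := by
    rw [Filter.eventually_all]
    intro i
    have h1 : ContinuousAt (fun y => f y i) x :=
      ((continuous_apply i).comp f.continuous).continuousAt
    exact h1.eventually (eventually_agree (f x i) (a i))
  obtain ⟨N, hN⟩ := exists_box (hab.and hc)
  have hb : ∀ i, b i ≤ N + ∑ i, b i := fun i =>
    le_trans (Finset.single_le_sum (f := b) (fun _ _ => Nat.zero_le _) (Finset.mem_univ i))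
      (Nat.le_add_left _ _)
  refine ⟨N + ∑ i, b i, fun i => pre (a i) (f x i) ++
    pre (N + ∑ i, b i - b i) (sh (b i) (x i)), fun w => ?_⟩
  set y : Fin n → ℕ → A := fun i => app (pre (N + ∑ i, b i) (x i)) (w i) with hy
  have hyx : ∀ i, ∀ k < N, y i k = x i k := by
    intro i k hk
    simp only [hy]
    rw [app_apply_lt _ _ _ (by rw [length_pre]; omega)]
    simp [pre]
  obtain ⟨h1, h2⟩ := hN y hyx
  funext i
  rw [app_append, ← sh_app_pre (hb i)]
  have h3 : pre (a i) (f x i) = pre (a i) (f y i) := (pre_congr (h2 i)).symm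
  rw [h3]
  have h4 : sh (b i) (app (pre (N + ∑ i, b i) (x i)) (w i)) = sh (a i) (f y i) := (h1 i).symm
  rw [h4, app_pre]

theorem brin_of_tail {n : ℕ} (f : (Fin n → ℕ → A) ≃ₜ (Fin n → ℕ → A)) (hf : TailRuleN f) :
    f ∈ brinOne A n := by
  choose N v hv using brin_local f hf
  obtain ⟨t, ht⟩ := CompactSpace.elim_nhds_subcover
    (fun x : Fin n → ℕ → A => {y : Fin n → ℕ → A | ∀ i, ∀ k < N x, y i k = x i k})
    (fun x => box_mem_nhds x (N x))
  refine ⟨(fun x : Fin n → ℕ → A => fun i => pre (N x) (x i)) '' (t : Set _),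
    t.finite_toSet.image _, ?_, ?_⟩
  · intro x
    have hx : x ∈ (⊤ : Set (Fin n → ℕ → A)) := trivial
    rw [← ht] at hx
    simp only [Set.mem_iUnion] at hx
    obtain ⟨z, hz, hxz⟩ := hx
    refine ⟨fun i => pre (N z) (z i), ⟨z, hz, rfl⟩, fun i => sh (N z) (x i), ?_⟩
    funext i
    have h3 : pre (N z) (z i) = pre (N z) (x i) := (pre_congr (hxz i)).symm
    simp only [h3]
    rw [app_pre]
  · rintro _ ⟨z, -, rfl⟩
    exact ⟨v z, hv z⟩

end tail

/-! ### Two tapes over `A` as two tapes over the alphabet -/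

section block

variable [Alph] {A : Type} [Finite A] [TopologicalSpace A] [DiscreteTopology A]
  (bitsE : A × A ≃ Q4)

/-- A tape over `A` is a tape over the alphabet, by blocks of length two. -/
noncomputable def tapeE : (ℕ → A) ≃ₜ Tape where
  toFun x := fun k => bitsE (x (2 * k), x (2 * k + 1))
  invFun t := fun m => if m % 2 = 0 then (bitsE.symm (t (m / 2))).1
    else (bitsE.symm (t (m / 2))).2
  left_inv := by
    intro x
    funext m
    simp only [Equiv.symm_apply_apply]
    split_ifs with h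
    · congr 1; omega
    · congr 1; omega
  right_inv := by
    intro t
    funext k
    have h1 : (2 * k) % 2 = 0 := by omega
    have h2 : ¬ (2 * k + 1) % 2 = 0 := by omega
    have h3 : (2 * k) / 2 = k := by omega
    have h4 : (2 * k + 1) / 2 = k := by omega
    simp only [h1, if_true, h2, if_false, h3, h4, Prod.mk.eta, Equiv.apply_symm_apply]
  continuous_toFun := by
    refine continuous_pi fun k => ?_
    exact (continuous_of_discreteTopology (f := bitsE)).comp
      ((continuous_apply (2 * k)).prodMk (continuous_apply (2 * k + 1)))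
  continuous_invFun := by
    refine continuous_pi fun m => ?_
    split_ifs with h
    · exact (continuous_of_discreteTopology (f := fun q => (bitsE.symm q).1)).comp
        (continuous_apply (m / 2))
    · exact (continuous_of_discreteTopology (f := fun q => (bitsE.symm q).2)).comp
        (continuous_apply (m / 2))

theorem tapeE_sh (n : ℕ) (x : ℕ → A) : tapeE bitsE (sh (2 * n) x) = sh n (tapeE bitsE x) := by
  funext k
  show bitsE (x (2 * n + 2 * k), x (2 * n + (2 * k + 1))) =
    bitsE (x (2 * (n + k)), x (2 * (n + k) + 1))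
  rw [show 2 * n + 2 * k = 2 * (n + k) by ring, show 2 * n + (2 * k + 1) = 2 * (n + k) + 1 by ring]

theorem tapeE_symm_sh (n : ℕ) (t : Tape) : sh (2 * n) ((tapeE bitsE).symm t) = (tapeE bitsE).symm (sh n t) := by
  apply (tapeE bitsE).injective
  rw [tapeE_sh, (tapeE bitsE).apply_symm_apply, (tapeE bitsE).apply_symm_apply]

variable {n : ℕ}

/-- The first coordinate. -/
def i0 (hn : 2 ≤ n) : Fin n := ⟨0, by omega⟩
/-- The second coordinate. -/
def i1 (hn : 2 ≤ n) : Fin n := ⟨1, by omega⟩

theorem i1_ne (hn : 2 ≤ n) : i1 hn ≠ i0 hn := by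
  intro h
  have := congrArg Fin.val h
  simp [i0, i1] at this

/-- The projection. -/
noncomputable def piF (hn : 2 ≤ n) (x : Fin n → ℕ → A) : YY :=
  (tapeE bitsE (x (i0 hn)), tapeE bitsE (x (i1 hn)))

/-- The section. -/
noncomputable def jF (hn : 2 ≤ n) (p : YY) : Fin n → ℕ → A := fun i =>
  if i = i0 hn then (tapeE bitsE).symm p.1 else if i = i1 hn then (tapeE bitsE).symm p.2
    else (tapeE bitsE).symm (fun _ => (0 : Q4))

/-- The lifted map. -/
noncomputable def LF (hn : 2 ≤ n) (g : YY → YY) (x : Fin n → ℕ → A) : Fin n → ℕ → A :=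
  fun i => if i = i0 hn then (tapeE bitsE).symm (g (piF bitsE hn x)).1
    else if i = i1 hn then (tapeE bitsE).symm (g (piF bitsE hn x)).2 else x i

theorem continuous_piF (hn : 2 ≤ n) : Continuous (piF bitsE hn) :=
  ((tapeE bitsE).continuous.comp (continuous_apply (i0 hn))).prodMk
    ((tapeE bitsE).continuous.comp (continuous_apply (i1 hn)))

theorem continuous_jF (hn : 2 ≤ n) : Continuous (jF bitsE hn) := by
  refine continuous_pi fun i => ?_
  unfold jF
  split_ifs
  · exact (tapeE bitsE).symm.continuous.comp continuous_fst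
  · exact (tapeE bitsE).symm.continuous.comp continuous_snd
  · exact continuous_const

theorem continuous_LF (hn : 2 ≤ n) {g : YY → YY} (hg : Continuous g) : Continuous (LF bitsE hn g) := by
  refine continuous_pi fun i => ?_
  unfold LF
  split_ifs
  · exact (tapeE bitsE).symm.continuous.comp (continuous_fst.comp (hg.comp (continuous_piF bitsE hn)))
  · exact (tapeE bitsE).symm.continuous.comp (continuous_snd.comp (hg.comp (continuous_piF bitsE hn)))
  · exact continuous_apply i

theorem LF_i0 (hn : 2 ≤ n) (g : YY → YY) (x : Fin n → ℕ → A) :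
    LF bitsE hn g x (i0 hn) = (tapeE bitsE).symm (g (piF bitsE hn x)).1 := by
  simp [LF]

theorem LF_i1 (hn : 2 ≤ n) (g : YY → YY) (x : Fin n → ℕ → A) :
    LF bitsE hn g x (i1 hn) = (tapeE bitsE).symm (g (piF bitsE hn x)).2 := by
  simp [LF, i1_ne hn]

theorem piF_LF (hn : 2 ≤ n) (g : YY → YY) (x : Fin n → ℕ → A) :
    piF bitsE hn (LF bitsE hn g x) = g (piF bitsE hn x) := by
  unfold piF
  rw [LF_i0, LF_i1]
  simp only [(tapeE bitsE).apply_symm_apply]
  rfl

theorem LF_LF (hn : 2 ≤ n) (g h : YY → YY) (x : Fin n → ℕ → A) :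
    LF bitsE hn g (LF bitsE hn h x) = LF bitsE hn (fun y => g (h y)) x := by
  funext i
  have e : piF bitsE hn (LF bitsE hn h x) = h (piF bitsE hn x) := piF_LF bitsE hn h x
  by_cases h0 : i = i0 hn
  · subst h0
    rw [LF_i0, LF_i0, e]
  · by_cases h1 : i = i1 hn
    · subst h1
      rw [LF_i1, LF_i1, e]
    · simp [LF, h0, h1]

theorem LF_id (hn : 2 ≤ n) (x : Fin n → ℕ → A) : LF bitsE hn (fun y => y) x = x := by
  funext i
  by_cases h0 : i = i0 hn
  · subst h0
    rw [LF_i0]; simp [piF]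
  · by_cases h1 : i = i1 hn
    · subst h1
      rw [LF_i1]; simp [piF]
    · simp [LF, h0, h1]

/-- The lift of a homeomorphism. -/
noncomputable def LH (hn : 2 ≤ n) (g : YY ≃ₜ YY) : (Fin n → ℕ → A) ≃ₜ (Fin n → ℕ → A) where
  toFun := LF bitsE hn g
  invFun := LF bitsE hn g.symm
  left_inv := by
    intro x
    rw [LF_LF]
    have : (fun y => g.symm (g y)) = fun y => y := by funext y; simp
    rw [this, LF_id]
  right_inv := by
    intro x
    rw [LF_LF]
    have : (fun y => g (g.symm y)) = fun y => y := by funext y; simp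
    rw [this, LF_id]
  continuous_toFun := continuous_LF bitsE hn g.continuous
  continuous_invFun := continuous_LF bitsE hn g.symm.continuous

include bitsE in
theorem exists_lift (hn : 2 ≤ n) :
    ∃ (L : (YY ≃ₜ YY) →* ((Fin n → ℕ → A) ≃ₜ (Fin n → ℕ → A)))
      (π : (Fin n → ℕ → A) → YY) (j : YY → (Fin n → ℕ → A)),
      Continuous π ∧ Continuous j ∧ (∀ g x, π (L g x) = g (π x)) ∧
      (∀ g y, L g (j y) = j (g y)) ∧ ∀ g : YY ≃ₜ YY, TailRule2 g → TailRuleN (L g) := by
  refine ⟨{ toFun := LH bitsE hn, map_one' := ?_, map_mul' := ?_ }, piF bitsE hn, jF bitsE hn, continuous_piF bitsE hn,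
    continuous_jF bitsE hn, ?_, ?_, ?_⟩
  · ext1 x
    exact LF_id bitsE hn x
  · intro g h
    ext1 x
    exact (LF_LF bitsE hn g h x).symm
  · intro g x
    exact piF_LF bitsE hn g x
  · intro g y
    show LF bitsE hn g (jF bitsE hn y) = jF bitsE hn (g y)
    have e : piF bitsE hn (jF bitsE hn y) = y := by
      simp [piF, jF, i1_ne hn]
    funext i
    by_cases h0 : i = i0 hn
    · subst h0
      rw [LF_i0, e]; simp [jF]
    · by_cases h1 : i = i1 hn
      · subst h1
        rw [LF_i1, e]; simp [jF, i1_ne hn]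
      · simp [LF, jF, h0, h1]
  · intro g hg x
    obtain ⟨a, b, c, d, h⟩ := hg (piF bitsE hn x)
    refine ⟨fun i => if i = i0 hn then 2 * a else if i = i1 hn then 2 * c else 0,
      fun i => if i = i0 hn then 2 * b else if i = i1 hn then 2 * d else 0, ?_⟩
    filter_upwards [(continuous_piF bitsE hn).continuousAt.eventually h] with y hy i
    show sh _ (LF bitsE hn g y i) = _
    by_cases h0 : i = i0 hn
    · subst h0
      rw [LF_i0]
      simp only [if_true]
      rw [tapeE_symm_sh, hy.1]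
      show (tapeE bitsE).symm (sh b (tapeE bitsE (y (i0 hn)))) = _
      rw [← tapeE_sh, (tapeE bitsE).symm_apply_apply]
    · by_cases h1 : i = i1 hn
      · subst h1
        rw [LF_i1]
        simp only [i1_ne hn, if_false, if_true]
        rw [tapeE_symm_sh, hy.2]
        show (tapeE bitsE).symm (sh d (tapeE bitsE (y (i1 hn)))) = _
        rw [← tapeE_sh, (tapeE bitsE).symm_apply_apply]
      · simp [LF, h0, h1]

end block



section bad

variable [Alph]

/-- The bad subgroup on two tapes. -/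
def HA : Subgroup (YY ≃ₜ YY) where
  carrier := {g | TailRule2 g ∧ WAct g}
  mul_mem' := fun {f g} hf hg =>
    ⟨(TailRule2.comp hf.1 hg.1 g.continuous : TailRule2 fun x => f (g x)),
      (WAct.comp hf.2 hg.2 : WAct fun x => f (g x))⟩
  one_mem' := ⟨fun p => ⟨0, 0, 0, 0, Filter.Eventually.of_forall fun q => ⟨rfl, rfl⟩⟩,
    ⟨[], by simp, fun p _ => rfl⟩⟩
  inv_mem' := fun {g} hg => ⟨TailRule2.symm hg.1, WAct.symm hg.2⟩

theorem bad_HA : Bad HA := by
  constructor
  · intro μ hμ hinv
    let mY : MeasurableSpace YY := borel YY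
    have bY : BorelSpace YY := ⟨rfl⟩
    have : IsProbabilityMeasure μ := hμ
    refine no_measure_A μ (fun f hf hfix => hinv f ⟨hf, [], by simp, fun p hp => hfix p hp⟩)
      (fun s hs => hinv (actH s hs) ⟨tailRule2_act s, [s], by simpa using hs, fun p hp => rfl⟩)
  · exact no_pingpong_A HA fun g hg => hg.2

end bad

/-- A bad subgroup of the group of homeomorphisms of `(A^ℕ)^n` given by prefix replacement. -/
theorem bad_brinOne (A : Type) [Fintype A] [TopologicalSpace A] [DiscreteTopology A]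
    (hA : 2 ≤ Fintype.card A) {n : ℕ} (hn : 2 ≤ n) :
    ∃ H : Subgroup ((Fin n → ℕ → A) ≃ₜ (Fin n → ℕ → A)),
      (∀ g ∈ H, g ∈ brinOne A n) ∧ Bad H := by
  have h4 : 4 ≤ Fintype.card A * Fintype.card A := by nlinarith
  have : Nonempty (Fin (Fintype.card A * Fintype.card A - 3)) := ⟨⟨0, by omega⟩⟩
  have e : A × A ≃ Fin 3 ⊕ Fin (Fintype.card A * Fintype.card A - 3) :=
    Fintype.equivOfCardEq (by
      rw [Fintype.card_prod, Fintype.card_sum, Fintype.card_fin, Fintype.card_fin]
      omega)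
  letI al : Alph := { R := Fin (Fintype.card A * Fintype.card A - 3) }
  obtain ⟨L, π, j, hπ, hj, h1, h2, hT⟩ := exists_lift (show A × A ≃ Q4 from e) hn
  refine ⟨HA.map L, ?_, Bad.transfer L π hπ j hj h1 h2 bad_HA⟩
  rintro _ ⟨g, hg, rfl⟩
  exact brin_of_tail (L g) (hT g hg.1)

end Pool.Agent.H380DU
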