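import Pool.Agent.H380DT.Basic

set_option autoImplicit false

namespace Pool.Agent.H380DU

open Pool.Agent.H380DT

open MeasureTheory Topology

/-- The further letters of the alphabet: any finite nonempty set. -/
class Alph where
  R : Type
  [fin : Finite R]
  [ne : Nonempty R]
  [dec : DecidableEq R]
  [top : TopologicalSpace R]
  [disc : DiscreteTopology R]


attribute [instance] Alph.fin Alph.ne Alph.dec Alph.top Alph.disc

variable [Alph]

/-- The alphabet of the tapes in part A: the letters `0, 1, 2` and further letters. -/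
abbrev Q4 : Type := Fin 3 ⊕ Alph.R

instance i0' : OfNat Q4 0 := ⟨Sum.inl 0⟩
instance i1' : OfNat Q4 1 := ⟨Sum.inl 1⟩
instance i2' : OfNat Q4 2 := ⟨Sum.inl 2⟩

/-- The letter is one of `0, 1, 2`. -/
def Ok (s : Q4) : Prop := s.isLeft = true

instance (s : Q4) : Decidable (Ok s) := inferInstanceAs (Decidable (s.isLeft = true))

@[simp] theorem q01 : ((0 : Q4) = 1) = False := eq_false (of_decide_eq_true rfl)
@[simp] theorem q10 : ((1 : Q4) = 0) = False := eq_false (of_decide_eq_true rfl)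
@[simp] theorem q02 : ((0 : Q4) = 2) = False := eq_false (of_decide_eq_true rfl)
@[simp] theorem q20 : ((2 : Q4) = 0) = False := eq_false (of_decide_eq_true rfl)
@[simp] theorem q12 : ((1 : Q4) = 2) = False := eq_false (of_decide_eq_true rfl)
@[simp] theorem q21 : ((2 : Q4) = 1) = False := eq_false (of_decide_eq_true rfl)
@[simp] theorem ok0 : Ok 0 := rfl
@[simp] theorem ok1 : Ok 1 := rfl
@[simp] theorem ok2 : Ok 2 := rfl

theorem Ok.cases {s : Q4} (h : Ok s) : s = 0 ∨ s = 1 ∨ s = 2 := by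
  rcases s with s | r
  · fin_cases s
    · exact Or.inl rfl
    · exact Or.inr (Or.inl rfl)
    · exact Or.inr (Or.inr rfl)
  · simp [Ok] at h

/-- One tape. -/
abbrev Tape : Type := ℕ → Q4
/-- Two tapes. -/
abbrev YY : Type := Tape × Tape

/-- The exchange of the two zones. -/
def flipA (p : YY) : YY :=
  if p.1 0 = 0 then (cons 1 p.2, sh 1 p.1)
  else if p.1 0 = 1 then (cons 0 p.2, sh 1 p.1)
  else p

/-- `s + 1` modulo `3`. -/
def jj (s : Q4) : Q4 := if s = 0 then 1 else if s = 1 then 2 else if s = 2 then 0 else s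
/-- `s + 2` modulo `3`. -/
def ll (s : Q4) : Q4 := if s = 0 then 2 else if s = 1 then 0 else if s = 2 then 1 else s

/-- The action of the letter `s` on the point `(cons 0 x, Z)` of zone 1. -/
def act1 (s : Q4) (x Z : Tape) : YY :=
  if x 0 = s then
    if x 1 = s then (cons 0 x, Z) else (cons 0 (sh 1 x), cons 0 Z)
  else if Z 0 = 0 then (cons 0 (cons s x), sh 1 Z)
  else if Z 0 = 1 then
    if Z 1 ≠ s then (cons 1 (cons 1 x), sh 1 Z)
    else if x 0 = jj s then (cons 0 (cons (ll s) x), Z)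
    else if x 0 = ll s ∧ x 1 = jj s then (cons 0 (sh 1 x), Z)
    else (cons 0 x, Z)
  else (cons 0 x, Z)

/-- The action of the letter `s` on two tapes. -/
def act (s : Q4) (p : YY) : YY :=
  if p.1 0 = 0 then act1 s (sh 1 p.1) p.2
  else if p.1 0 = 1 then flipA (act1 s p.2 (sh 1 p.1))
  else p

/-- The action of a word of letters. -/
def wact : List Q4 → YY → YY
  | [], p => p
  | s :: w, p => act s (wact w p)

/-- Reduced infinite words in the letters `0, 1, 2`. -/
def Red : Set Tape := {x | ∀ n, Ok (x n) ∧ x n ≠ x (n + 1)}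

/-- The word `0^t 1 y`. -/
def zrun (t : ℕ) (y : Tape) : Tape := app (List.replicate t 0) (cons 1 y)

def Q1 (x : Tape) : YY := (cons 0 x, fun _ => 0)
def Q2 (y : Tape) : YY := (cons 1 (fun _ => 0), y)
def P1 (x : Tape) (t : ℕ) (y : Tape) : YY := (cons 0 x, zrun t y)
def P2 (x y : Tape) (t : ℕ) : YY := (cons 1 (zrun t x), y)

/-- The invariant closed set. -/
def EA : Set YY :=
  {p | (∃ x ∈ Red, p = Q1 x ∨ p = Q2 x) ∨ ∃ x ∈ Red, ∃ y ∈ Red, ∃ t, p = P1 x t y ∨ p = P2 x y t}

/-- `g` acts on `EA` as a word. -/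
def WAct (g : YY → YY) : Prop :=
  ∃ w : List Q4, (∀ s ∈ w, Ok s) ∧ ∀ p ∈ EA, g p = wact w p

/-- Tail rule on two tapes. -/
def TailRule2 (f : YY → YY) : Prop :=
  ∀ p, ∃ a b c d : ℕ, ∀ᶠ q in 𝓝 p, sh a (f q).1 = sh b q.1 ∧ sh c (f q).2 = sh d q.2

end Pool.Agent.H380DU
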