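import Pool.Agent.H380DU.AAct

set_option autoImplicit false

namespace Pool.Agent.H380DU

open Pool.Agent.H380DT

variable [Alph]

open MeasureTheory Topology

/-- Swapping two disjoint clopen sets. -/
theorem exists_swap_gen {X : Type*} [TopologicalSpace X] {B₁ B₂ : Set X} (h1 : IsClopen B₁)
    (h2 : IsClopen B₂) (hd : ∀ x, x ∈ B₁ → x ∈ B₂ → False) (α β : X → X) (hα : Continuous α)
    (hβ : Continuous β) (m1 : ∀ x ∈ B₁, α x ∈ B₂) (m2 : ∀ x ∈ B₂, β x ∈ B₁)
    (i1 : ∀ x ∈ B₁, β (α x) = x) (i2 : ∀ x ∈ B₂, α (β x) = x) :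
    ∃ f : X ≃ₜ X, (∀ x ∈ B₁, f x = α x) ∧ (∀ x ∈ B₂, f x = β x) ∧
      ∀ x, x ∉ B₁ → x ∉ B₂ → f x = x := by
  classical
  let F : X → X := fun x => if x ∈ B₁ then α x else if x ∈ B₂ then β x else x
  have F1 : ∀ x ∈ B₁, F x = α x := fun x hx => if_pos hx
  have F2 : ∀ x ∈ B₂, F x = β x := fun x hx => by
    have : x ∉ B₁ := fun h => hd x h hx
    simp [F, this, hx]
  have F3 : ∀ x, x ∉ B₁ → x ∉ B₂ → F x = x := fun x h h' => by simp [F, h, h']
  have FF : ∀ x, F (F x) = x := by
    intro x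
    by_cases hx1 : x ∈ B₁
    · rw [F1 x hx1, F2 _ (m1 x hx1), i1 x hx1]
    by_cases hx2 : x ∈ B₂
    · rw [F2 x hx2, F1 _ (m2 x hx2), i2 x hx2]
    rw [F3 x hx1 hx2, F3 x hx1 hx2]
  have Fc : Continuous F := by
    rw [continuous_iff_continuousAt]
    intro x
    by_cases hx1 : x ∈ B₁
    · exact hα.continuousAt.congr (by
        filter_upwards [h1.isOpen.mem_nhds hx1] with y hy using (F1 y hy).symm)
    by_cases hx2 : x ∈ B₂
    · exact hβ.continuousAt.congr (by
        filter_upwards [h2.isOpen.mem_nhds hx2] with y hy using (F2 y hy).symm)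
    · exact continuousAt_id.congr (by
        filter_upwards [h1.compl.isOpen.mem_nhds hx1, h2.compl.isOpen.mem_nhds hx2] with y hy hy'
          using (F3 y hy hy').symm)
  exact ⟨⟨⟨F, F, FF, FF⟩, Fc, Fc⟩, F1, F2, F3⟩

theorem isClosed_Red : IsClosed Red := by
  have : Red = ⋂ n, ({x : Tape | Ok (x n)} ∩ {x : Tape | x n ≠ x (n + 1)}) := by
    ext x; simp [Red]
  rw [this]
  refine isClosed_iInter fun n => IsClosed.inter ?_ ?_
  · have : {x : Tape | Ok (x n)} = (fun x : Tape => x n) ⁻¹' {q | Ok q} := by ext; simp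
    rw [this]
    exact (isClosed_discrete _).preimage (continuous_apply n)
  · have : {x : Tape | x n ≠ x (n + 1)} = (fun x : Tape => (x n, x (n + 1))) ⁻¹'
        {p | p.1 ≠ p.2} := by ext; simp
    rw [this]
    exact (isClosed_discrete _).preimage (by fun_prop)

/-- The possible second tapes in zone 1. -/
def Rz : Set Tape :=
  {Z | ∀ t, (∀ i < t, Z i = 0) → Z t = 0 ∨ (Z t = 1 ∧ sh (t + 1) Z ∈ Red)}

theorem sh_zrun (t : ℕ) (y : Tape) : sh (t + 1) (zrun t y) = y := by
  have h : zrun t y = app (List.replicate t 0 ++ [1]) y := by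
    rw [app_append]; rfl
  have h2 : t + 1 = (List.replicate t (0 : Q4) ++ [1]).length := by simp
  rw [h, h2, sh_app]

theorem zrun_lt {t i : ℕ} (y : Tape) (h : i < t) : zrun t y i = 0 := by
  rw [zrun, app_apply_lt _ _ i (by simpa using h)]
  simp

theorem zrun_self (t : ℕ) (y : Tape) : zrun t y t = 1 := by
  have := app_apply_add (List.replicate t (0 : Q4)) (cons 1 y) 0
  simpa [zrun] using this

theorem eq_zrun {Z : Tape} {t : ℕ} (h0 : ∀ i < t, Z i = 0) (h1 : Z t = 1) :
    Z = zrun t (sh (t + 1) Z) := by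
  have h2 := eq_app_of_sh (n := t + 1) (w := Z) rfl
  have h3 : pre (t + 1) Z = pre (t + 1) (zrun t (sh (t + 1) Z)) := by
    apply pre_congr
    intro i hi
    rcases Nat.lt_succ_iff_lt_or_eq.1 hi with h | rfl
    · rw [h0 i h, zrun_lt _ h]
    · rw [h1, zrun_self]
  have h4 := eq_app_of_sh (sh_zrun t (sh (t + 1) Z))
  rw [h4, ← h3, ← h2]

theorem mem_Rz {Z : Tape} : Z ∈ Rz ↔ Z = (fun _ => 0) ∨ ∃ t, ∃ y ∈ Red, Z = zrun t y := by
  constructor
  · intro h
    by_cases h0 : ∀ i, Z i = 0
    · left; funext i; exact h0 i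
    · right
      classical
      push Not at h0
      have hmin : ∀ i < Nat.find h0, Z i = 0 := fun i hi => by
        have := Nat.find_min h0 hi
        push Not at this
        exact this
      rcases h _ hmin with h1 | ⟨h1, h2⟩
      · exact absurd h1 (Nat.find_spec h0)
      · exact ⟨Nat.find h0, _, h2, eq_zrun hmin h1⟩
  · rintro (rfl | ⟨t, y, hy, rfl⟩)
    · intro t _; exact Or.inl rfl
    · intro s hs
      rcases lt_trichotomy s t with h | rfl | h
      · left; exact zrun_lt y h
      · right; exact ⟨zrun_self s y, by rw [sh_zrun]; exact hy⟩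
      · exfalso
        have := hs t h
        rw [zrun_self] at this
        exact absurd this (by first | exact of_decide_eq_true rfl | (simp; done))

theorem isClosed_coord (n : ℕ) (a : Q4) : IsClosed {x : Tape | x n = a} :=
  isClosed_eq (continuous_apply n) continuous_const

theorem isClosed_Rz : IsClosed Rz := by
  have : Rz = ⋂ t, ({x : Tape | ∀ i < t, x i = 0}ᶜ ∪ ({x : Tape | x t = 0} ∪
      ({x : Tape | x t = 1} ∩ sh (t + 1) ⁻¹' Red))) := by
    ext Z
    simp only [Rz, Set.mem_ofPred_eq, Set.mem_iInter, Set.mem_union, Set.mem_compl_iff,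
      Set.mem_inter_iff, Set.mem_preimage]
    refine forall_congr' fun t => ?_
    rw [imp_iff_not_or]
  rw [this]
  refine isClosed_iInter fun t => IsClosed.union ?_ (IsClosed.union (isClosed_coord t 0)
    (IsClosed.inter (isClosed_coord t 1) (isClosed_Red.preimage (continuous_sh _))))
  have : {x : Tape | ∀ i < t, x i = 0}ᶜ = ⋃ i ∈ Finset.range t, {x : Tape | x i ≠ 0} := by
    ext x; simp
  rw [this]
  refine Set.Finite.isClosed_biUnion (Finset.finite_toSet _) fun i _ => ?_
  have : {x : Tape | x i ≠ 0} = (fun x : Tape => x i) ⁻¹' {0}ᶜ := by ext; simp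
  rw [this]
  exact (isClosed_discrete _).preimage (continuous_apply i)

/-- Zone 1 part of `EA`. -/
def Zone1 : Set YY := {p | p.1 0 = 0 ∧ sh 1 p.1 ∈ Red ∧ p.2 ∈ Rz}

theorem isClosed_Zone1 : IsClosed Zone1 :=
  IsClosed.inter ((isClosed_coord 0 0).preimage continuous_fst)
    (IsClosed.inter ((isClosed_Red.preimage (continuous_sh 1)).preimage continuous_fst)
      (isClosed_Rz.preimage continuous_snd))

theorem mem_Zone1 {p : YY} : p ∈ Zone1 ↔ (∃ x ∈ Red, p = Q1 x) ∨
    ∃ x ∈ Red, ∃ y ∈ Red, ∃ t, p = P1 x t y := by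
  obtain ⟨X, Z⟩ := p
  constructor
  · rintro ⟨h0, h1, h2⟩
    have hX : X = cons 0 (sh 1 X) := by
      have h0' : X 0 = 0 := h0
      rw [← h0', cons_sh]
    rcases mem_Rz.1 h2 with h | ⟨t, y, hy, h⟩
    · left
      refine ⟨sh 1 X, h1, ?_⟩
      simp only at h
      rw [Q1, ← hX, h]
    · right
      refine ⟨sh 1 X, h1, y, hy, t, ?_⟩
      simp only at h
      rw [P1, ← hX, h]
  · rintro (⟨x, hx, h⟩ | ⟨x, hx, y, hy, t, h⟩)
    · rw [h]
      exact ⟨rfl, by simpa [Q1] using hx, mem_Rz.2 (Or.inl rfl)⟩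
    · rw [h]
      exact ⟨rfl, by simpa [P1] using hx, mem_Rz.2 (Or.inr ⟨t, y, hy, rfl⟩)⟩

theorem EA_eq : EA = Zone1 ∪ flipA ⁻¹' Zone1 := by
  ext p
  simp only [Set.mem_union, Set.mem_preimage, mem_Zone1]
  constructor
  · rintro (⟨x, hx, rfl | rfl⟩ | ⟨x, hx, y, hy, t, rfl | rfl⟩)
    · exact Or.inl (Or.inl ⟨x, hx, rfl⟩)
    · exact Or.inr (Or.inl ⟨x, hx, flipA_Q2 x⟩)
    · exact Or.inl (Or.inr ⟨x, hx, y, hy, t, rfl⟩)
    · exact Or.inr (Or.inr ⟨y, hy, x, hx, t, flipA_P2 x y t⟩)
  · rintro ((⟨x, hx, rfl⟩ | ⟨x, hx, y, hy, t, rfl⟩) | (⟨x, hx, h⟩ | ⟨x, hx, y, hy, t, h⟩))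
    · exact Or.inl ⟨x, hx, Or.inl rfl⟩
    · exact Or.inr ⟨x, hx, y, hy, t, Or.inl rfl⟩
    · have := congrArg flipA h
      rw [flipA_flipA, flipA_Q1] at this
      exact Or.inl ⟨x, hx, Or.inr this⟩
    · have := congrArg flipA h
      rw [flipA_flipA, flipA_P1] at this
      exact Or.inr ⟨y, hy, x, hx, t, Or.inr this⟩

theorem isClosed_EA : IsClosed EA := by
  rw [EA_eq]
  exact isClosed_Zone1.union (isClosed_Zone1.preimage continuous_flipA)

/-! ### the pieces of zone 1 -/

/-- Level `t`, first letters `u` and `s`. -/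
def ZS (t : ℕ) (u s : Q4) : Set YY :=
  {p | ∃ x ∈ Red, ∃ y ∈ Red, x 0 = u ∧ y 0 = s ∧ p = P1 x t y}

/-- The limit points with first letter `u`. -/
def ZQ (u : Q4) : Set YY := {p | ∃ x ∈ Red, x 0 = u ∧ p = Q1 x}

theorem isClosed_ZS (t : ℕ) (u s : Q4) : IsClosed (ZS t u s) := by
  have : ZS t u s = ((fun p : YY => p.1) ⁻¹' {x | x 0 = 0}) ∩
      (((fun p : YY => sh 1 p.1) ⁻¹' Red) ∩ (((fun p : YY => sh 1 p.1) ⁻¹' {x | x 0 = u}) ∩
      (((fun p : YY => p.2) ⁻¹' (⋂ i ∈ Finset.range t, {x : Tape | x i = 0})) ∩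
      (((fun p : YY => p.2) ⁻¹' {x | x t = 1}) ∩ (((fun p : YY => sh (t + 1) p.2) ⁻¹' Red) ∩
      ((fun p : YY => sh (t + 1) p.2) ⁻¹' {x | x 0 = s})))))) := by
    ext ⟨X, Z⟩
    simp only [ZS, Set.mem_ofPred_eq, Set.mem_inter_iff, Set.mem_preimage, Set.mem_iInter,
      Finset.mem_range]
    constructor
    · rintro ⟨x, hx, y, hy, hu, hs, h⟩
      rw [P1, Prod.mk.injEq] at h
      obtain ⟨rfl, rfl⟩ := h
      refine ⟨rfl, by simpa using hx, by simpa using hu, fun i hi => zrun_lt y hi, zrun_self t y,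
        by rw [sh_zrun]; exact hy, by rw [sh_zrun]; exact hs⟩
    · rintro ⟨h1, h2, h3, h4, h5, h6, h7⟩
      refine ⟨sh 1 X, h2, sh (t + 1) Z, h6, h3, h7, ?_⟩
      rw [P1, ← eq_zrun h4 h5, ← h1, cons_sh]
  rw [this]
  have c1 : Continuous fun p : YY => sh 1 p.1 := (continuous_sh 1).comp continuous_fst
  have c2 : Continuous fun p : YY => sh (t + 1) p.2 := (continuous_sh _).comp continuous_snd
  refine ((isClosed_coord 0 0).preimage continuous_fst).inter ((isClosed_Red.preimage c1).inter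
    (((isClosed_coord 0 u).preimage c1).inter (IsClosed.inter ?_
      (((isClosed_coord t 1).preimage continuous_snd).inter ((isClosed_Red.preimage c2).inter
        ((isClosed_coord 0 s).preimage c2))))))
  exact (isClosed_biInter fun i _ => isClosed_coord i 0).preimage continuous_snd

theorem isClosed_ZQ (u : Q4) : IsClosed (ZQ u) := by
  have : ZQ u = ((fun p : YY => p.1) ⁻¹' {x | x 0 = 0}) ∩
      (((fun p : YY => sh 1 p.1) ⁻¹' Red) ∩ (((fun p : YY => sh 1 p.1) ⁻¹' {x | x 0 = u}) ∩
      ((fun p : YY => p.2) ⁻¹' (⋂ i : ℕ, {x : Tape | x i = 0})))) := by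
    ext ⟨X, Z⟩
    simp only [ZQ, Set.mem_ofPred_eq, Set.mem_inter_iff, Set.mem_preimage, Set.mem_iInter]
    constructor
    · rintro ⟨x, hx, hu, h⟩
      rw [Q1, Prod.mk.injEq] at h
      obtain ⟨rfl, rfl⟩ := h
      exact ⟨rfl, by simpa using hx, by simpa using hu, fun i => rfl⟩
    · rintro ⟨h1, h2, h3, h4⟩
      refine ⟨sh 1 X, h2, h3, ?_⟩
      have hZ : Z = fun _ => 0 := funext h4
      rw [Q1, cons_sh_of h1, hZ]
  rw [this]
  have c1 : Continuous fun p : YY => sh 1 p.1 := (continuous_sh 1).comp continuous_fst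
  refine ((isClosed_coord 0 0).preimage continuous_fst).inter ((isClosed_Red.preimage c1).inter
    (((isClosed_coord 0 u).preimage c1).inter ?_))
  exact (isClosed_iInter fun i => isClosed_coord i 0).preimage continuous_snd

theorem preimage_ZS {l : Q4} (hl : Ok l) (t : ℕ) (s : Q4) :
    act l ⁻¹' ZS t l s = ⋃ u ∈ ({0, 1, 2} : Finset Q4).erase l, ZS (t + 1) u s := by
  ext p
  simp only [Set.mem_preimage, Set.mem_iUnion]
  constructor
  · rintro ⟨x, hx, y, hy, hu, hs, h⟩
    have h1 : x = cons l (sh 1 x) := by rw [← hu, cons_sh]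
    have h2 : sh 1 x ∈ Red ∧ sh 1 x 0 ≠ l ∧ Ok l := Red.cons_iff.1 (by rw [← h1]; exact hx)
    have h3 := congrArg (act l) h
    rw [act_act hl, h1, act_P1_cons h2.2.1] at h3
    refine ⟨sh 1 x 0, ?_, sh 1 x, h2.1, y, hy, rfl, hs, h3⟩
    rw [Finset.mem_erase]
    refine ⟨h2.2.1, ?_⟩
    have := (h2.1 0).1
    rcases this.cases with h | h | h <;> rw [h] <;> simp
  · rintro ⟨u, hu, x, hx, y, hy, hxu, hys, rfl⟩
    rw [Finset.mem_erase] at hu
    have hxl : x 0 ≠ l := by rw [hxu]; exact hu.1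
    rw [act_P1_succ hxl]
    exact ⟨cons l x, Red.cons_iff.2 ⟨hx, hxl, hl⟩, y, hy, rfl, hys, rfl⟩

theorem preimage_ZQ {l : Q4} (hl : Ok l) :
    act l ⁻¹' ZQ l = ⋃ u ∈ ({0, 1, 2} : Finset Q4).erase l, ZQ u := by
  ext p
  simp only [Set.mem_preimage, Set.mem_iUnion]
  constructor
  · rintro ⟨x, hx, hu, h⟩
    have h1 : x = cons l (sh 1 x) := by rw [← hu, cons_sh]
    have h2 : sh 1 x ∈ Red ∧ sh 1 x 0 ≠ l ∧ Ok l := Red.cons_iff.1 (by rw [← h1]; exact hx)
    have h3 := congrArg (act l) h
    rw [act_act hl, h1, act_Q1_cons h2.2.1] at h3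
    refine ⟨sh 1 x 0, ?_, sh 1 x, h2.1, rfl, h3⟩
    rw [Finset.mem_erase]
    refine ⟨h2.2.1, ?_⟩
    have := (h2.1 0).1
    rcases this.cases with h | h | h <;> rw [h] <;> simp
  · rintro ⟨u, hu, x, hx, hxu, rfl⟩
    rw [Finset.mem_erase] at hu
    have hxl : x 0 ≠ l := by rw [hxu]; exact hu.1
    rw [act_Q1 hxl]
    exact ⟨cons l x, Red.cons_iff.2 ⟨hx, hxl, hl⟩, rfl, rfl⟩

theorem preimage_special {s : Q4} (hs : Ok s) :
    act s ⁻¹' (act (ll s) ⁻¹' ZS 1 (jj s) s) = ZS 0 (jj s) s := by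
  obtain ⟨hj, hl, hjl, hj3, hl3⟩ := jj_ne hs
  ext p
  simp only [Set.mem_preimage]
  constructor
  · rintro ⟨x, hx, y, hy, hu, hys, h⟩
    have h1 := congrArg (act (ll s)) h
    rw [act_act hl3, act_P1_succ (by rw [hu]; exact hjl)] at h1
    have h2 := congrArg (act s) h1
    rw [act_act hs, act_P1_lj hs hu hys] at h2
    exact ⟨x, hx, y, hy, hu, hys, h2⟩
  · rintro ⟨x, hx, y, hy, hu, hys, rfl⟩
    rw [act_P1_j hs hu hys, act_P1_cons (by rw [hu]; exact hjl)]
    exact ⟨x, hx, y, hy, hu, hys, rfl⟩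

theorem jj_cases {s : Q4} (hs : Ok s) : jj s = 0 ∨ jj s = 1 ∨ jj s = 2 := by
  exact (jj_ne hs).2.2.2.1.cases

theorem letter_cases {u : Q4} (hu : Ok u) : u = 0 ∨ u = 1 ∨ u = 2 := by
  exact hu.cases

theorem ZS_disjoint {t : ℕ} {u u' s : Q4} (h : u ≠ u') : Disjoint (ZS t u s) (ZS t u' s) := by
  rw [Set.disjoint_left]
  rintro p ⟨x, hx, y, hy, hu, hs, rfl⟩ ⟨x', hx', y', hy', hu', hs', h'⟩
  apply h
  have h2 := congrArg (fun p : YY => p.1 1) h'
  have h3 : x 0 = x' 0 := h2
  rw [← hu, ← hu', h3]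

theorem ZQ_disjoint {u u' : Q4} (h : u ≠ u') : Disjoint (ZQ u) (ZQ u') := by
  rw [Set.disjoint_left]
  rintro p ⟨x, hx, hu, rfl⟩ ⟨x', hx', hu', h'⟩
  apply h
  have h2 := congrArg (fun p : YY => p.1 1) h'
  have h3 : x 0 = x' 0 := h2
  rw [← hu, ← hu', h3]

section meas

variable [MeasurableSpace YY] [BorelSpace YY] (ν : Measure YY) [IsFiniteMeasure ν]
  (hact : ∀ s : Q4, Ok s → ν.map (act s) = ν)

include hact

theorem inv_preimage {s : Q4} (hs : Ok s) {S : Set YY} (hS : MeasurableSet S) :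
    ν (act s ⁻¹' S) = ν S := by
  have h : ν.map (act s) S = ν S := by rw [hact s hs]
  rwa [Measure.map_apply (continuous_act s).measurable hS] at h

theorem ZS_sum {l : Q4} (hl : Ok l) (t : ℕ) (s : Q4) :
    ν.real (ZS t l s) = ∑ u ∈ ({0, 1, 2} : Finset Q4).erase l, ν.real (ZS (t + 1) u s) := by
  have h1 := inv_preimage ν hact hl (isClosed_ZS t l s).measurableSet
  rw [preimage_ZS hl, measure_biUnion_finset (fun a _ b _ hab => ZS_disjoint hab)
    (fun b _ => (isClosed_ZS _ _ _).measurableSet)] at h1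
  rw [Measure.real, ← h1, ENNReal.toReal_sum fun a _ => measure_ne_top _ _]
  rfl

theorem ZQ_sum {l : Q4} (hl : Ok l) :
    ν.real (ZQ l) = ∑ u ∈ ({0, 1, 2} : Finset Q4).erase l, ν.real (ZQ u) := by
  have h1 := inv_preimage ν hact hl (isClosed_ZQ l).measurableSet
  rw [preimage_ZQ hl, measure_biUnion_finset (fun a _ b _ hab => ZQ_disjoint hab)
    (fun b _ => (isClosed_ZQ _).measurableSet)] at h1
  rw [Measure.real, ← h1, ENNReal.toReal_sum fun a _ => measure_ne_top _ _]
  rfl

theorem ZS_special {s : Q4} (hs : Ok s) :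
    ν.real (ZS 1 (jj s) s) = ν.real (ZS 0 (jj s) s) := by
  have h1 := inv_preimage ν hact (jj_ne hs).2.2.2.2 (isClosed_ZS 1 (jj s) s).measurableSet
  have h2 := inv_preimage ν hact hs
    ((isClosed_ZS 1 (jj s) s).measurableSet.preimage (continuous_act (ll s)).measurable)
  rw [preimage_special hs] at h2
  rw [Measure.real, Measure.real, h2, h1]

theorem ZS_level_zero {s : Q4} (hs : Ok s) (u : Q4) (hu : Ok u) : ν.real (ZS 0 u s) = 0 := by
  have e0 : ∀ t, ν.real (ZS t 0 s) = ν.real (ZS (t + 1) 1 s) + ν.real (ZS (t + 1) 2 s) := by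
    intro t
    rw [ZS_sum ν hact (by first | exact of_decide_eq_true rfl | (simp; done)) t s, show ({0, 1, 2} : Finset Q4).erase 0 = {1, 2} by first | exact of_decide_eq_true rfl | (simp; done),
      Finset.sum_pair (by first | exact of_decide_eq_true rfl | (simp; done))]
  have e1 : ∀ t, ν.real (ZS t 1 s) = ν.real (ZS (t + 1) 0 s) + ν.real (ZS (t + 1) 2 s) := by
    intro t
    rw [ZS_sum ν hact (by first | exact of_decide_eq_true rfl | (simp; done)) t s, show ({0, 1, 2} : Finset Q4).erase 1 = {0, 2} by first | exact of_decide_eq_true rfl | (simp; done),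
      Finset.sum_pair (by first | exact of_decide_eq_true rfl | (simp; done))]
  have e2 : ∀ t, ν.real (ZS t 2 s) = ν.real (ZS (t + 1) 0 s) + ν.real (ZS (t + 1) 1 s) := by
    intro t
    rw [ZS_sum ν hact (by first | exact of_decide_eq_true rfl | (simp; done)) t s, show ({0, 1, 2} : Finset Q4).erase 2 = {0, 1} by first | exact of_decide_eq_true rfl | (simp; done),
      Finset.sum_pair (by first | exact of_decide_eq_true rfl | (simp; done))]
  have hsp := ZS_special ν hact hs
  have nn : ∀ t v, 0 ≤ ν.real (ZS t v s) := fun t v => measureReal_nonneg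
  have a0 := e0 0
  have a1 := e0 1
  have a2 := e0 2
  have a3 := e0 3
  have b0 := e1 0
  have b1 := e1 1
  have b2 := e1 2
  have b3 := e1 3
  have c0 := e2 0
  have c1 := e2 1
  have c2 := e2 2
  have c3 := e2 3
  simp only [Nat.zero_add, Nat.reduceAdd] at a0 a1 a2 a3 b0 b1 b2 b3 c0 c1 c2 c3
  have hj := jj_cases hs
  have n0 := nn 4 0
  have n1 := nn 4 1
  have n2 := nn 4 2
  have m0 := nn 0 0
  have m1 := nn 0 1
  have m2 := nn 0 2
  have k0 := nn 1 0
  have k1 := nn 1 1
  have k2 := nn 1 2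
  have hu' := letter_cases hu
  rcases hj with hj | hj | hj <;> rw [hj] at hsp <;> rcases hu' with rfl | rfl | rfl <;> linarith

theorem ZS_zero (t : ℕ) {s : Q4} (hs : Ok s) (u : Q4) (hu : Ok u) : ν.real (ZS t u s) = 0 := by
  induction t generalizing u with
  | zero => exact ZS_level_zero ν hact hs u hu
  | succ t ih =>
    have e0 := ZS_sum ν hact (l := 0) (by first | exact of_decide_eq_true rfl | (simp; done)) t s
    have e1 := ZS_sum ν hact (l := 1) (by first | exact of_decide_eq_true rfl | (simp; done)) t s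
    rw [ih 0 (by first | exact of_decide_eq_true rfl | (simp; done)), show ({0, 1, 2} : Finset Q4).erase 0 = {1, 2} by first | exact of_decide_eq_true rfl | (simp; done),
      Finset.sum_pair (by first | exact of_decide_eq_true rfl | (simp; done))] at e0
    rw [ih 1 (by first | exact of_decide_eq_true rfl | (simp; done)), show ({0, 1, 2} : Finset Q4).erase 1 = {0, 2} by first | exact of_decide_eq_true rfl | (simp; done),
      Finset.sum_pair (by first | exact of_decide_eq_true rfl | (simp; done))] at e1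
    have nn : ∀ v, 0 ≤ ν.real (ZS (t + 1) v s) := fun v => measureReal_nonneg
    have n0 := nn 0
    have n1 := nn 1
    have n2 := nn 2
    have hu' := letter_cases hu
    rcases hu' with rfl | rfl | rfl <;> linarith

theorem ZQ_zero (u : Q4) (hu : Ok u) : ν.real (ZQ u) = 0 := by
  have e0 := ZQ_sum ν hact (l := 0) (by first | exact of_decide_eq_true rfl | (simp; done))
  have e1 := ZQ_sum ν hact (l := 1) (by first | exact of_decide_eq_true rfl | (simp; done))
  have e2 := ZQ_sum ν hact (l := 2) (by first | exact of_decide_eq_true rfl | (simp; done))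
  rw [show ({0, 1, 2} : Finset Q4).erase 0 = {1, 2} by first | exact of_decide_eq_true rfl | (simp; done), Finset.sum_pair (by first | exact of_decide_eq_true rfl | (simp; done))] at e0
  rw [show ({0, 1, 2} : Finset Q4).erase 1 = {0, 2} by first | exact of_decide_eq_true rfl | (simp; done), Finset.sum_pair (by first | exact of_decide_eq_true rfl | (simp; done))] at e1
  rw [show ({0, 1, 2} : Finset Q4).erase 2 = {0, 1} by first | exact of_decide_eq_true rfl | (simp; done), Finset.sum_pair (by first | exact of_decide_eq_true rfl | (simp; done))] at e2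
  have nn : ∀ v, 0 ≤ ν.real (ZQ v) := fun v => measureReal_nonneg
  have n0 := nn 0
  have n1 := nn 1
  have n2 := nn 2
  have hu' := letter_cases hu
  rcases hu' with rfl | rfl | rfl <;> linarith

theorem Zone1_null : ν Zone1 = 0 := by
  have hsub : Zone1 ⊆ (⋃ u : {u : Q4 // Ok u}, ZQ u) ∪
      ⋃ t : ℕ, ⋃ u : {u : Q4 // Ok u}, ⋃ s : {s : Q4 // Ok s}, ZS t u s := by
    intro p hp
    rcases mem_Zone1.1 hp with ⟨x, hx, rfl⟩ | ⟨x, hx, y, hy, t, rfl⟩
    · left
      exact Set.mem_iUnion.2 ⟨⟨x 0, (hx 0).1⟩, x, hx, rfl, rfl⟩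
    · right
      exact Set.mem_iUnion.2 ⟨t, Set.mem_iUnion.2 ⟨⟨x 0, (hx 0).1⟩, Set.mem_iUnion.2
        ⟨⟨y 0, (hy 0).1⟩, x, hx, y, hy, rfl, rfl, rfl⟩⟩⟩
  refine measure_mono_null hsub (measure_union_null ?_ ?_)
  · refine measure_iUnion_null fun u => ?_
    exact (measureReal_eq_zero_iff).1 (ZQ_zero ν hact u u.2)
  · refine measure_iUnion_null fun t => measure_iUnion_null fun u => measure_iUnion_null fun s => ?_
    exact (measureReal_eq_zero_iff).1 (ZS_zero ν hact t s.2 u u.2)

end meas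

/-- The null sets off `EA`. -/
theorem box_null [MeasurableSpace YY] [BorelSpace YY] (μ : Measure YY)
    [IsProbabilityMeasure μ]
    (hswap : ∀ f : YY ≃ₜ YY, TailRule2 f → (∀ x ∈ EA, f x = x) → μ.map f = μ)
    (n : ℕ) (B : Set YY) (hB : IsClopen B) (hBE : ∀ p ∈ B, p ∉ EA)
    (hBn : ∀ p q : YY, p ∈ B → (∀ i < n, q.1 i = p.1 i) → q.2 = p.2 → q ∈ B) :
    μ B = 0 := by
  -- the piece with letter `q` at position `n`
  let D : Q4 → Set YY := fun q => B ∩ {p | p.1 n = q}
  let D2 : Q4 → Q4 → Set YY := fun q r => B ∩ {p | p.1 n = q ∧ p.1 (n + 1) = r}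
  have hc : ∀ (m : ℕ) (q : Q4), IsClopen {p : YY | p.1 m = q} := by
    intro m q
    have : {p : YY | p.1 m = q} = (fun p : YY => p.1 m) ⁻¹' {q} := by ext; simp
    rw [this]
    exact (isClopen_discrete _).preimage ((continuous_apply m).comp continuous_fst)
  have hD : ∀ q, IsClopen (D q) := fun q => hB.inter (hc n q)
  have hD2 : ∀ q r, IsClopen (D2 q r) := fun q r => hB.inter ((hc n q).inter (hc (n + 1) r))
  have key : ∀ q q' r : Q4, q ≠ q' → μ (D2 q r) = μ (D q') := by
    intro q q' r hqq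
    let α : YY → YY := fun p =>
      (fun i => if i < n then p.1 i else if i = n then q' else p.1 (i + 1), p.2)
    let β : YY → YY := fun p =>
      (fun i => if i < n then p.1 i else if i = n then q else if i = n + 1 then r
        else p.1 (i - 1), p.2)
    have hα : Continuous α := by
      refine Continuous.prodMk (continuous_pi fun i => ?_) continuous_snd
      by_cases h1 : i < n
      · simp only [h1, if_true]; fun_prop
      · by_cases h2 : i = n
        · simp only [h2, lt_irrefl, if_false, if_true]; fun_prop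
        · simp only [h1, h2, if_false]; fun_prop
    have hβ : Continuous β := by
      refine Continuous.prodMk (continuous_pi fun i => ?_) continuous_snd
      by_cases h1 : i < n
      · simp only [h1, if_true]; fun_prop
      · by_cases h2 : i = n
        · simp only [h2, lt_irrefl, if_false, if_true]; fun_prop
        · by_cases h3 : i = n + 1
          · simp only [h3, show ¬ n + 1 < n by omega, show ¬ n + 1 = n by omega, if_false,
              if_true]
            fun_prop
          · simp only [h1, h2, h3, if_false]; fun_prop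
    have hαB : ∀ p ∈ B, α p ∈ B := fun p hp => hBn p _ hp (fun i hi => by simp [α, hi]) rfl
    have hβB : ∀ p ∈ B, β p ∈ B := fun p hp => hBn p _ hp (fun i hi => by simp [β, hi]) rfl
    obtain ⟨f, f1, f2, f3⟩ := exists_swap_gen (hD2 q r) (hD q')
      (fun x hx hx' => hqq (hx.2.1.symm.trans hx'.2)) α β hα hβ
      (fun p hp => ⟨hαB p hp.1, by simp [α]⟩)
      (fun p hp => ⟨hβB p hp.1, by simp [β], by simp [β]⟩)
      (by
        rintro ⟨X, Z⟩ ⟨hp1, hp2, hp3⟩
        simp only at hp2 hp3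
        simp only [α, β, Prod.mk.injEq, and_true]
        funext i
        by_cases h1 : i < n
        · simp [h1]
        · by_cases h2 : i = n
          · subst h2; simp [hp2]
          · by_cases h3 : i = n + 1
            · subst h3; simp [hp3]
            · have h4 : ¬ i - 1 < n := by omega
              have h5 : ¬ i - 1 = n := by omega
              have h6 : i - 1 + 1 = i := by omega
              simp [h1, h2, h3, h4, h5, h6])
      (by
        rintro ⟨X, Z⟩ ⟨hp1, hp2⟩
        simp only [Set.mem_ofPred_eq] at hp2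
        simp only [α, β, Prod.mk.injEq, and_true]
        funext i
        by_cases h1 : i < n
        · simp [h1]
        · by_cases h2 : i = n
          · subst h2; simp [hp2]
          · have h4 : ¬ i + 1 < n := by omega
            have h5 : ¬ i + 1 = n := by omega
            have h6 : ¬ i = n := h2
            simp [h1, h2, h4, h5])
    have hfE : ∀ x ∈ EA, f x = x := by
      intro x hx
      exact f3 x (fun h => hBE x h.1 hx) (fun h => hBE x h.1 hx)
    have hft : TailRule2 f := by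
      intro p
      by_cases hp1 : p ∈ D2 q r
      · refine ⟨n + 1, n + 2, 0, 0, ?_⟩
        filter_upwards [(hD2 q r).isOpen.mem_nhds hp1] with x hx
        rw [f1 x hx]
        refine ⟨?_, rfl⟩
        funext i
        have h1 : ¬ n + 1 + i < n := by omega
        have h2 : ¬ n + 1 + i = n := by omega
        simp only [sh, α, h1, h2, if_false]
        rw [show n + 1 + i + 1 = n + 2 + i by omega]
      by_cases hp2 : p ∈ D q'
      · refine ⟨n + 2, n + 1, 0, 0, ?_⟩
        filter_upwards [(hD q').isOpen.mem_nhds hp2] with x hx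
        rw [f2 x hx]
        refine ⟨?_, rfl⟩
        funext i
        have h1 : ¬ n + 2 + i < n := by omega
        have h2 : ¬ n + 2 + i = n := by omega
        have h3 : ¬ n + 2 + i = n + 1 := by omega
        simp only [sh, β, h1, h2, h3, if_false]
        rw [show n + 2 + i - 1 = n + 1 + i by omega]
      · refine ⟨0, 0, 0, 0, ?_⟩
        filter_upwards [(hD2 q r).compl.isOpen.mem_nhds hp1, (hD q').compl.isOpen.mem_nhds hp2]
          with x hx hx'
        rw [f3 x hx hx']
        exact ⟨rfl, rfl⟩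
    have h1 : μ.map f (D q') = μ (D q') := by rw [hswap f hft hfE]
    rw [Measure.map_apply f.continuous.measurable (hD q').isClosed.measurableSet] at h1
    rw [← h1]
    congr 1
    ext x
    simp only [Set.mem_preimage]
    constructor
    · intro hx
      rw [f1 x hx]
      exact ⟨hαB x hx.1, by simp [α]⟩
    · intro hx
      by_contra hcon
      by_cases hx2 : x ∈ D q'
      · rw [f2 x hx2] at hx
        apply hqq
        have h3 : (β x).1 n = q := by simp [β]
        have h4 : (β x).1 n = q' := hx.2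
        rw [← h3, h4]
      · rw [f3 x hcon hx2] at hx
        exact hx2 hx
  have two : ∀ q q' : Q4, q ≠ q' → 2 * μ (D q') ≤ μ (D q) := by
    intro q q' hqq
    have h1 : μ (D2 q 0 ∪ D2 q 1) ≤ μ (D q) := by
      apply measure_mono
      rintro x (hx | hx)
      · exact ⟨hx.1, hx.2.1⟩
      · exact ⟨hx.1, hx.2.1⟩
    have hdis : Disjoint (D2 q 0) (D2 q 1) := by
      rw [Set.disjoint_left]
      intro x hx hx'
      have := hx.2.2.symm.trans hx'.2.2
      exact absurd this (by first | exact of_decide_eq_true rfl | (simp; done))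
    rw [measure_union hdis (hD2 q 1).isClosed.measurableSet, key q q' 0 hqq, key q q' 1 hqq,
      ← two_mul] at h1
    exact h1
  have hzero : ∀ q : Q4, μ (D q) = 0 := by
    intro q
    obtain ⟨q', hq'⟩ : ∃ q' : Q4, q ≠ q' := by
      by_cases h0 : q = 0
      · exact ⟨1, by rw [h0]; simp⟩
      · exact ⟨0, h0⟩
    have h1 := two q q' hq'
    have h2 := two q' q hq'.symm
    have h3 : μ (D q) ≠ ⊤ := measure_ne_top _ _
    have h4 : μ (D q') ≠ ⊤ := measure_ne_top _ _
    have h5 := ENNReal.toReal_mono h3 h1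
    have h6 := ENNReal.toReal_mono h4 h2
    rw [ENNReal.toReal_mul] at h5 h6
    simp only [ENNReal.toReal_ofNat] at h5 h6
    have h7 : 0 ≤ (μ (D q)).toReal := ENNReal.toReal_nonneg
    have h8 : (μ (D q)).toReal = 0 := by linarith
    rcases (ENNReal.toReal_eq_zero_iff _).1 h8 with h | h
    · exact h
    · exact absurd h h3
  have hsub : B ⊆ ⋃ q : Q4, D q := fun x hx => Set.mem_iUnion.2 ⟨x.1 n, hx, rfl⟩
  exact measure_mono_null hsub (measure_iUnion_null hzero)

theorem no_measure_A [MeasurableSpace YY] [BorelSpace YY] (μ : Measure YY)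
    [IsProbabilityMeasure μ]
    (hswap : ∀ f : YY ≃ₜ YY, TailRule2 f → (∀ x ∈ EA, f x = x) → μ.map f = μ)
    (hact : ∀ s : Q4, Ok s → μ.map (act s) = μ) : False := by
  have hmf : Measurable flipA := continuous_flipA.measurable
  have h1 : μ Zone1 = 0 := Zone1_null μ hact
  have h2 : μ (flipA ⁻¹' Zone1) = 0 := by
    have : IsFiniteMeasure (μ.map flipA) := Measure.isFiniteMeasure_map μ flipA
    have h3 := Zone1_null (μ.map flipA) (fun s hs => by
      have hma : Measurable (act s) := (continuous_act s).measurable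
      rw [Measure.map_map hma hmf]
      have h4 : act s ∘ flipA = flipA ∘ act s := by
        funext p; exact act_flipA s p
      rw [h4, ← Measure.map_map hmf hma, hact s hs])
    rwa [Measure.map_apply hmf isClosed_Zone1.measurableSet] at h3
  have h3 : μ EA = 0 := by
    rw [EA_eq]
    exact measure_union_null h1 h2
  have h4 : μ EAᶜ = 0 := by
    apply measure_null_of_locally_null
    intro p hp
    have hopen : EAᶜ ∈ 𝓝 p := isClosed_EA.isOpen_compl.mem_nhds hp
    rw [mem_nhds_prod_iff] at hopen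
    obtain ⟨u, hu, v, hv, huv⟩ := hopen
    obtain ⟨n, hn⟩ := exists_cylinder (P := fun z => z ∈ u) hu
    obtain ⟨m, hm⟩ := exists_cylinder (P := fun z => z ∈ v) hv
    let B : Set YY := {q | (∀ i < n, q.1 i = p.1 i) ∧ ∀ i < m, q.2 i = p.2 i}
    have hc : ∀ (k : ℕ) (a : Tape), IsClopen {x : Tape | ∀ i < k, x i = a i} := by
      intro k a
      have : {x : Tape | ∀ i < k, x i = a i} = ⋂ i ∈ Finset.range k, (fun x : Tape => x i) ⁻¹' {a i} := by
        ext x; simp
      rw [this]
      exact isClopen_biInter_finset fun i _ => (isClopen_discrete _).preimage (continuous_apply i)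
    have hB : IsClopen B := ((hc n p.1).preimage continuous_fst).inter
      ((hc m p.2).preimage continuous_snd)
    refine ⟨B, mem_nhdsWithin_of_mem_nhds (hB.isOpen.mem_nhds ⟨fun i _ => rfl, fun i _ => rfl⟩), ?_⟩
    refine box_null μ hswap n B hB ?_ ?_
    · intro q hq
      exact huv ⟨hn _ hq.1, hm _ hq.2⟩
    · intro q q' hq h1 h2
      refine ⟨fun i hi => (h1 i hi).trans (hq.1 i hi), fun i hi => ?_⟩
      rw [h2]; exact hq.2 i hi
  have h5 : μ Set.univ = 0 := by
    rw [← Set.union_compl_self EA]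
    exact measure_union_null h3 h4
  rw [measure_univ] at h5
  exact one_ne_zero h5

end Pool.Agent.H380DU
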