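import Pool.Agent.H380DU.Copies
import Pool.Agent.H380DT.BFinal

set_option autoImplicit false

namespace Pool.Agent.H380DU

open Pool.Agent.H380DT
open MeasureTheory Topology

theorem failsFG_aut (d k : ℕ) (hd : 2 ≤ d) (hk : 1 ≤ k) :
    FailsFG (autHigmanThompson d k) := by
  obtain ⟨e, rfl⟩ : ∃ e, d = e + 2 := ⟨d - 2, by omega⟩
  obtain ⟨l, rfl⟩ : ∃ l, k = l + 1 := ⟨k - 1, by omega⟩
  have h01 : (0 : Fin (e + 2)) ≠ 1 := by simp
  have key : ∀ f : (Fin (l + 1) × (ℕ → Fin (e + 2))) ≃ₜ (Fin (l + 1) × (ℕ → Fin (e + 2))),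
      f ∈ higmanThompson (e + 2) (l + 1) ↔ TailRule f id := by
    intro f
    constructor
    · rintro ⟨P, -, h1, h2⟩
      exact TailRule.of_cover ⟨P, h1, h2⟩
    · intro hf
      exact TailRule.cover f.continuous hf
  suffices hb : ∃ H : Subgroup ((Fin (l + 1) × (ℕ → Fin (e + 2))) ≃ₜ
      (Fin (l + 1) × (ℕ → Fin (e + 2)))), H ≤ normG (Fin (l + 1)) (Fin (e + 2)) ∧ Bad H by
    obtain ⟨H, hHG, hH⟩ := hb
    refine Bad.failsFG' hH fun g hg => ?_
    intro f
    rw [key, key]
    exact hHG hg f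
  refine bad_B (code3 (0 : Fin (e + 2)) 1 h01) (0 : Fin (l + 1))
    (normG (Fin (l + 1)) (Fin (e + 2))) ?_ ?_
  · intro h hh f
    have hinv : TailRule (h⁻¹ : (Fin (l + 1) × (ℕ → Fin (e + 2))) ≃ₜ _) id := TailRule.inv_id hh
    constructor
    · intro hf
      have := TailRule.comp_id (TailRule.comp_id hh hf f.continuous) hinv (h⁻¹).continuous
      exact this
    · intro hf
      have := TailRule.comp_id (TailRule.comp_id hinv hf (h * f * h⁻¹).continuous) hh h.continuous
      have h3 : (fun x => h⁻¹ ((h * f * h⁻¹) (h x))) = f := by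
        funext x
        simp
      rw [h3] at this
      exact this
  · intro N hN f
    set g := (code3 (0 : Fin (e + 2)) 1 h01).HN (Nmap N) (0 : Fin (l + 1)) d3_two (Nmap_sq hN)
      with hg
    have hginv : g⁻¹ = g := rfl
    have hgg : ∀ x, g (g x) = x := fun x => g.left_inv x
    have hgt : TailRule g ((code3 (0 : Fin (e + 2)) 1 h01).phi (Nmap N)) :=
      Code.tailRule_hfun _ _ _
    have hconj : ∀ f : (Fin (l + 1) × (ℕ → Fin (e + 2))) ≃ₜ (Fin (l + 1) × (ℕ → Fin (e + 2))),
        TailRule f id → TailRule (g * f * g⁻¹) id := by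
      intro f hf
      rw [hginv]
      exact Code.tailRule_conj _ (Nmap N) d3_two (Nmap_sq hN) g f g.continuous f.continuous hgt hf
    constructor
    · exact hconj f
    · intro hf
      have := hconj _ hf
      have h3 : g * (g * f * g⁻¹) * g⁻¹ = f := by
        ext x : 1
        simp [hginv, hgg]
      rw [h3] at this
      exact this

theorem failsFG_rational (A : Type) [Finite A] [Nontrivial A] [TopologicalSpace A]
    [DiscreteTopology A] : FailsFG (rationalHomeos A) := by
  obtain ⟨a0, a1, h01⟩ := exists_pair_ne A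
  suffices hb : ∃ H : Subgroup ((Unit × (ℕ → A)) ≃ₜ (Unit × (ℕ → A))),
      H ≤ ratG A ∧ Bad H by
    obtain ⟨H, hHG, hH⟩ := hb
    have := Bad.transfer (punitConj A) (fun w => ((), w)) (by fun_prop) Prod.snd (by fun_prop)
      (fun g x => rfl) (fun g y => rfl) hH
    refine Bad.failsFG' this ?_
    rintro _ ⟨g, hg, rfl⟩
    exact (hHG hg).1
  refine bad_B (code3 a0 a1 h01) () (ratG A)
    (fun f hf => ⟨tail_rat f.continuous hf, tail_rat f.symm.continuous (TailRule.inv_id hf)⟩) ?_
  · intro N hN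
    obtain ⟨T, hT⟩ := rational_hmap (code3 a0 a1 h01) (Nmap N)
    have : RatU ((code3 a0 a1 h01).HN (Nmap N) () d3_two (Nmap_sq hN)) := by
      refine ⟨T, ?_⟩
      have h3 : (fun w => ((code3 a0 a1 h01).HN (Nmap N) () d3_two (Nmap_sq hN) ((), w)).2)
          = (code3 a0 a1 h01).hmap (Nmap N) := by
        funext w
        show ((code3 a0 a1 h01).hfun () (Nmap N) ((), w)).2 = _
        simp [Code.hfun]
      rw [h3]
      exact hT
    exact ⟨this, this⟩

end Pool.Agent.H380DU
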