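import Pool.Agent.H380DU.ABrin

set_option autoImplicit false

namespace Pool.Agent.H380DU

open Pool.Agent.H380DT
open MeasureTheory Topology

/-- No Borel probability measure is preserved by all elements of `H`. -/
def NoInvariantMeasure {X : Type*} [TopologicalSpace X] (H : Subgroup (X ≃ₜ X)) : Prop :=
  ∀ μ : @Measure X (borel X), @IsProbabilityMeasure X (borel X) μ →
    ¬ ∀ h ∈ H, @Measure.map X X (borel X) (borel X) (h : X → X) μ = μ

/-- The group of homeomorphisms `G` contains a finitely generated subgroup which preserves no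
Borel probability measure and has no ping-pong pair. -/
def FailsFG {X : Type*} [TopologicalSpace X] (G : Set (X ≃ₜ X)) : Prop :=
  ∃ S : Finset (X ≃ₜ X),
    ((Subgroup.closure (S : Set (X ≃ₜ X)) : Subgroup (X ≃ₜ X)) : Set (X ≃ₜ X)) ⊆ G ∧
    NoInvariantMeasure (Subgroup.closure (S : Set (X ≃ₜ X))) ∧
    ¬ HasPingPong (Subgroup.closure (S : Set (X ≃ₜ X)))

/-- The Brin-Higman-Thompson group: homeomorphisms of `Ω × (A^ℕ)^I` (copies of the `I`-dimensional
cube, indexed by `Ω`) which are given, on finitely many boxes, by prefix replacement in each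
coordinate and a change of the copy. A box restricts only finitely many coordinates. -/
def brinHigman (Ω I A : Type) [TopologicalSpace Ω] [TopologicalSpace A] :
    Set ((Ω × (I → ℕ → A)) ≃ₜ (Ω × (I → ℕ → A))) :=
  {f | ∃ P : Set (Ω × (I → List A)), P.Finite ∧ (∀ u ∈ P, {i | u.2 i ≠ []}.Finite) ∧
      (∀ x : Ω × (I → ℕ → A), ∃ u ∈ P, ∃ w : I → ℕ → A, x = (u.1, fun i => app (u.2 i) (w i))) ∧
      ∀ u ∈ P, ∃ v : Ω × (I → List A), {i | v.2 i ≠ []}.Finite ∧ ∀ w : I → ℕ → A,
        f (u.1, fun i => app (u.2 i) (w i)) = (v.1, fun i => app (v.2 i) (w i))}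

/-- Transfer of a finitely generated bad group. -/
theorem Bad.failsFG {X Y : Type*} [TopologicalSpace X] [TopologicalSpace Y]
    (L : (Y ≃ₜ Y) →* (X ≃ₜ X)) (π : X → Y) (hπ : Continuous π) (j : Y → X) (hj : Continuous j)
    (h1 : ∀ g x, π (L g x) = g (π x)) (h2 : ∀ g y, L g (j y) = j (g y))
    {S : Finset (Y ≃ₜ Y)} (hS : Bad (Subgroup.closure (S : Set (Y ≃ₜ Y)))) {G : Set (X ≃ₜ X)}
    (hG : ∀ g ∈ Subgroup.closure (S : Set (Y ≃ₜ Y)), L g ∈ G) : FailsFG G := by
  classical
  have hb := Bad.transfer L π hπ j hj h1 h2 hS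
  have he : (Subgroup.closure (S : Set (Y ≃ₜ Y))).map L =
      Subgroup.closure ((S.image L : Finset (X ≃ₜ X)) : Set (X ≃ₜ X)) := by
    rw [MonoidHom.map_closure, Finset.coe_image]
  rw [he] at hb
  refine ⟨S.image L, ?_, fun μ hμ hinv => hb.1 μ hμ hinv, hb.2⟩
  intro g hg
  rw [← he] at hg
  obtain ⟨g', hg', rfl⟩ := hg
  exact hG g' hg'

theorem Bad.failsFG' {X : Type*} [TopologicalSpace X] [CompactSpace X]
    [TopologicalSpace.MetrizableSpace X] {H : Subgroup (X ≃ₜ X)} (hH : Bad H) {G : Set (X ≃ₜ X)}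
    (hG : ∀ g ∈ H, g ∈ G) : FailsFG G := by
  obtain ⟨S, hS, hb⟩ := hH.exists_fg
  refine ⟨S, fun g hg => hG g ((Subgroup.closure_le H).2 hS hg), fun μ hμ hinv => hb.1 μ hμ hinv,
    hb.2⟩

section lift

open Classical in
/-- Two coordinates are replaced. -/
noncomputable def put {I B : Type} (i0 i1 : I) (y : Fin 2 → B) (x : I → B) : I → B := fun i =>
  if i = i0 then y 0 else if i = i1 then y 1 else x i

variable {I B : Type} {i0 i1 : I}

theorem put_i0 (y : Fin 2 → B) (x : I → B) : put i0 i1 y x i0 = y 0 := by simp [put]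

theorem put_i1 (h : i1 ≠ i0) (y : Fin 2 → B) (x : I → B) : put i0 i1 y x i1 = y 1 := by
  simp [put, h]

/-- Two coordinates. -/
def two (i0 i1 : I) (x : I → B) : Fin 2 → B := ![x i0, x i1]

theorem two_put (h : i1 ≠ i0) (y : Fin 2 → B) (x : I → B) : two i0 i1 (put i0 i1 y x) = y := by
  funext k
  fin_cases k
  · exact put_i0 y x
  · exact put_i1 h y x

theorem put_put (y z : Fin 2 → B) (x : I → B) : put i0 i1 y (put i0 i1 z x) = put i0 i1 y x := by
  funext i
  unfold put
  split_ifs <;> rfl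

theorem put_two (x : I → B) : put i0 i1 (two i0 i1 x) x = x := by
  funext i
  unfold put
  split_ifs with h h'
  · rw [h]; rfl
  · rw [h']; rfl
  · rfl

theorem continuous_two [TopologicalSpace B] : Continuous (two i0 i1 : (I → B) → Fin 2 → B) := by
  refine continuous_pi fun k => ?_
  fin_cases k
  · exact continuous_apply i0
  · exact continuous_apply i1

theorem continuous_put [TopologicalSpace B] {Z : Type*} [TopologicalSpace Z]
    {f : Z → Fin 2 → B} {g : Z → I → B} (hf : Continuous f) (hg : Continuous g) :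
    Continuous fun z => put i0 i1 (f z) (g z) := by
  refine continuous_pi fun i => ?_
  unfold put
  split_ifs
  · exact (continuous_apply 0).comp hf
  · exact (continuous_apply 1).comp hf
  · exact (continuous_apply i).comp hg

/-- The lifted homeomorphism. -/
noncomputable def liftH (Ω : Type) [TopologicalSpace Ω] [TopologicalSpace B] (h : i1 ≠ i0)
    (g : (Fin 2 → B) ≃ₜ (Fin 2 → B)) : (Ω × (I → B)) ≃ₜ (Ω × (I → B)) where
  toFun x := (x.1, put i0 i1 (g (two i0 i1 x.2)) x.2)
  invFun x := (x.1, put i0 i1 (g.symm (two i0 i1 x.2)) x.2)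
  left_inv x := by
    refine Prod.ext rfl ?_
    show put i0 i1 (g.symm (two i0 i1 (put i0 i1 (g (two i0 i1 x.2)) x.2)))
      (put i0 i1 (g (two i0 i1 x.2)) x.2) = x.2
    rw [two_put h, put_put, g.symm_apply_apply, put_two]
  right_inv x := by
    refine Prod.ext rfl ?_
    show put i0 i1 (g (two i0 i1 (put i0 i1 (g.symm (two i0 i1 x.2)) x.2)))
      (put i0 i1 (g.symm (two i0 i1 x.2)) x.2) = x.2
    rw [two_put h, put_put, g.apply_symm_apply, put_two]
  continuous_toFun := continuous_fst.prodMk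
    (continuous_put (g.continuous.comp (continuous_two.comp continuous_snd)) continuous_snd)
  continuous_invFun := continuous_fst.prodMk
    (continuous_put (g.symm.continuous.comp (continuous_two.comp continuous_snd)) continuous_snd)

/-- The lift as a homomorphism. -/
noncomputable def liftHom (Ω : Type) [TopologicalSpace Ω] [TopologicalSpace B] (h : i1 ≠ i0) :
    ((Fin 2 → B) ≃ₜ (Fin 2 → B)) →* ((Ω × (I → B)) ≃ₜ (Ω × (I → B))) where
  toFun := liftH Ω h
  map_one' := by
    ext1 x
    exact Prod.ext rfl (put_two x.2)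
  map_mul' := by
    intro f g
    ext1 x
    refine Prod.ext rfl ?_
    show put i0 i1 (f (g (two i0 i1 x.2))) x.2 =
      put i0 i1 (f (two i0 i1 (put i0 i1 (g (two i0 i1 x.2)) x.2)))
        (put i0 i1 (g (two i0 i1 x.2)) x.2)
    rw [two_put h, put_put]

end lift

/-- Prefixes in two coordinates. -/
noncomputable def ext2 {I A : Type} (i0 i1 : I) (u : Fin 2 → List A) : I → List A :=
  put i0 i1 u fun _ => []

theorem ext2_fin {I A : Type} (i0 i1 : I) (u : Fin 2 → List A) :
    {i | ext2 i0 i1 u i ≠ []}.Finite := by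
  refine (Set.toFinite ({i0, i1} : Set I)).subset ?_
  intro i hi
  by_contra hno
  simp only [Set.mem_insert_iff, Set.mem_singleton_iff, not_or] at hno
  apply hi
  simp [ext2, put, hno.1, hno.2]

theorem put_app {I A : Type} {i0 i1 : I} (u : Fin 2 → List A) (w : Fin 2 → ℕ → A)
    (x : I → ℕ → A) :
    (fun i => app (ext2 i0 i1 u i) (put i0 i1 w x i)) =
      put i0 i1 (fun k => app (u k) (w k)) x := by
  funext i
  unfold ext2 put
  split_ifs <;> rfl

theorem two_app {I A : Type} {i0 i1 : I} (h : i1 ≠ i0) (u : Fin 2 → List A) (w : I → ℕ → A) :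
    two i0 i1 (fun i => app (ext2 i0 i1 u i) (w i)) = fun k => app (u k) (two i0 i1 w k) := by
  funext k
  fin_cases k
  · show app (ext2 i0 i1 u i0) (w i0) = app (u 0) (w i0)
    rw [ext2, put_i0]
  · show app (ext2 i0 i1 u i1) (w i1) = app (u 1) (w i1)
    rw [ext2, put_i1 h]

theorem lift_mem {Ω I A : Type} [Finite Ω] [TopologicalSpace Ω] [TopologicalSpace A] {i0 i1 : I}
    (h : i1 ≠ i0) (g : (Fin 2 → ℕ → A) ≃ₜ (Fin 2 → ℕ → A)) (hg : g ∈ brinOne A 2) :
    liftHom Ω h g ∈ brinHigman Ω I A := by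
  obtain ⟨P, hP, hcov, hrep⟩ := hg
  refine ⟨Set.univ ×ˢ (ext2 i0 i1 '' P), Set.finite_univ.prod (hP.image _), ?_, ?_, ?_⟩
  · rintro ⟨c, u⟩ ⟨-, u', -, hu⟩
    simp only at hu ⊢
    rw [← hu]
    exact ext2_fin _ _ _
  · rintro ⟨c, x⟩
    obtain ⟨u, hu, w, hw⟩ := hcov (two i0 i1 x)
    refine ⟨(c, ext2 i0 i1 u), ⟨trivial, u, hu, rfl⟩, put i0 i1 w x, ?_⟩
    refine Prod.ext rfl ?_
    show x = fun i => app (ext2 i0 i1 u i) (put i0 i1 w x i)
    rw [put_app, ← hw, put_two]
  · rintro ⟨c, u⟩ ⟨-, u', hu', hu⟩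
    simp only at hu
    subst hu
    obtain ⟨v, hv⟩ := hrep u' hu'
    refine ⟨(c, ext2 i0 i1 v), ext2_fin _ _ _, fun w => ?_⟩
    refine Prod.ext rfl ?_
    show put i0 i1 (g (two i0 i1 (fun i => app (ext2 i0 i1 u' i) (w i))))
      (fun i => app (ext2 i0 i1 u' i) (w i)) = fun i => app (ext2 i0 i1 v i) (w i)
    rw [two_app h, hv]
    funext i
    unfold ext2 put two
    split_ifs with h0 h1
    · rw [h0]; rfl
    · rw [h1]; rfl
    · simp [h0, h1]

/-- Every Brin-Higman-Thompson group of dimension at least two has a finitely generated bad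
subgroup. -/
theorem failsFG_brinHigman (A : Type) [Fintype A] [TopologicalSpace A] [DiscreteTopology A]
    (hA : 2 ≤ Fintype.card A) (Ω I : Type) [Finite Ω] [Nonempty Ω] [TopologicalSpace Ω]
    [Nontrivial I] : FailsFG (brinHigman Ω I A) := by
  obtain ⟨i1, i0, h⟩ := exists_pair_ne I
  obtain ⟨H, hH, hb⟩ := bad_brinOne A hA (n := 2) le_rfl
  obtain ⟨S, hS, hbS⟩ := hb.exists_fg
  obtain ⟨c⟩ := (inferInstance : Nonempty Ω)
  have hne : Nonempty A := Fintype.card_pos_iff.1 (by omega)
  obtain ⟨a⟩ := hne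
  refine Bad.failsFG (liftHom Ω h) (fun x => two i0 i1 x.2) (continuous_two.comp continuous_snd)
    (fun y => (c, put i0 i1 y fun _ _ => a))
    (continuous_const.prodMk (continuous_put continuous_id continuous_const)) ?_ ?_ hbS ?_
  · intro g x
    exact two_put h _ _
  · intro g y
    refine Prod.ext rfl ?_
    show put i0 i1 (g (two i0 i1 (put i0 i1 y fun _ _ => a))) (put i0 i1 y fun _ _ => a) = _
    rw [two_put h, put_put]
  · intro g hg
    exact lift_mem h g (hH g ((Subgroup.closure_le H).2 hS hg))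

end Pool.Agent.H380DU
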